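import Pool.Agent.W500.CS.Stm

/-!
# CQ-DIFC: differentiability from the restriction to one curve
-/

set_option autoImplicit false

open MeasureTheory Polynomial Metric Set Filter Topology
open scoped ComplexConjugate

namespace Pool.Agent.W778.CQ.DIFC

open Pool.Agent.W500.CS

/-- gradient inequality for convex functions -/
theorem convex_grad {E : Type*} [NormedAddCommGroup E] [NormedSpace ℝ E] {S : Set E} {V : E → ℝ}
    {L : E →L[ℝ] ℝ} (hV : ConvexOn ℝ S V) {y z : E} (hy : y ∈ S) (hz : z ∈ S)
    (hL : HasFDerivAt V L y) : V y + L (z - y) ≤ V z := by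
  have h1 : HasDerivAt (fun s : ℝ => y + s • (z - y)) (z - y) 0 := by
    simpa using ((hasDerivAt_id (0 : ℝ)).smul_const (z - y)).const_add y
  have h2 : HasDerivAt (fun s : ℝ => V (y + s • (z - y))) (L (z - y)) 0 := by
    have hL' : HasFDerivAt V L (y + (0 : ℝ) • (z - y)) := by simpa using hL
    exact hL'.comp_hasDerivAt (0 : ℝ) h1
  have h3 := h2.tendsto_slope_zero_right
  have h4 : ∀ᶠ t : ℝ in 𝓝[>] 0,
      t⁻¹ • ((fun s : ℝ => V (y + s • (z - y))) (0 + t) - (fun s : ℝ => V (y + s • (z - y))) 0)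
        ≤ V z - V y := by
    have h5 : ∀ᶠ t : ℝ in 𝓝[>] 0, t ∈ Ioo (0 : ℝ) 1 := Ioo_mem_nhdsGT one_pos
    filter_upwards [h5] with t ht
    have h6 := hV.2 hy hz (by linarith [ht.2] : (0 : ℝ) ≤ 1 - t) ht.1.le (by ring)
    have h7 : (1 - t) • y + t • z = y + t • (z - y) := by
      rw [sub_smul, smul_sub, one_smul]; abel
    rw [h7] at h6
    simp only [zero_add, zero_smul, add_zero, smul_eq_mul] at h6 ⊢
    rw [inv_mul_le_iff₀ ht.1]
    linarith
  have h5 := le_of_tendsto h3 h4
  linarith

theorem main : S_NBR → S_DIFC := by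
  intro hN r W U B hD γ t hx hγ i hg hne
  apply hN r W U B hD (γ t) hx i
  have key : ∀ j, j ≠ i → ∀ᶠ y in 𝓝 (γ t), ¬ HasFDerivAt U (gr (B j y)) y := by
    intro j hj
    by_contra hcon
    have hfr : ∃ᶠ y in 𝓝 (γ t), HasFDerivAt U (gr (B j y)) y := by
      rwa [Filter.Frequently]
    obtain ⟨ε, hε, C, hball, hconv⟩ := hD.sc (γ t) hx
    have hcont : ContinuousOn (fun y => U y + C * ‖y‖ ^ 2) (ball (γ t) ε) :=
      hconv.continuousOn isOpen_ball
    have hcx : ContinuousAt (fun y => U y + C * ‖y‖ ^ 2) (γ t) :=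
      hcont.continuousAt (isOpen_ball.mem_nhds (mem_ball_self hε))
    have hBx : ContinuousAt (B j) (γ t) :=
      ((hD.hol j).differentiableAt (hD.op.mem_nhds hx)).continuousAt
    -- the inequality at the limit point
    have hlim : ∀ z ∈ ball (γ t) ε,
        (U (γ t) + C * ‖γ t‖ ^ 2) + ((B j (γ t) * (z - γ t)).re
          + C * (2 * inner ℝ (γ t) (z - γ t))) ≤ U z + C * ‖z‖ ^ 2 := by
      intro z hz
      set F : ℂ → ℝ := fun y => (U y + C * ‖y‖ ^ 2) + ((B j y * (z - y)).re
          + C * (2 * inner ℝ y (z - y))) with hF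
      have hFc : ContinuousAt F (γ t) := by
        refine hcx.add (ContinuousAt.add ?_ ?_)
        · exact Complex.continuous_re.continuousAt.comp
            (hBx.mul (continuousAt_const.sub continuousAt_id))
        · refine continuousAt_const.mul (continuousAt_const.mul ?_)
          exact (continuous_id.inner (continuous_const.sub continuous_id)).continuousAt
      have hle : ∃ᶠ y in 𝓝 (γ t), F y ≤ U z + C * ‖z‖ ^ 2 := by
        have hev : ∀ᶠ y in 𝓝 (γ t), y ∈ ball (γ t) ε := isOpen_ball.mem_nhds (mem_ball_self hε)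
        refine (hfr.and_eventually hev).mono ?_
        rintro y ⟨hy, hyb⟩
        have hd2 : HasFDerivAt (fun y : ℂ => U y + C * ‖y‖ ^ 2)
            (gr (B j y) + C • (2 • (innerSL ℝ y))) y := by
          exact hy.add ((hasStrictFDerivAt_norm_sq y).hasFDerivAt.const_mul C)
        have := convex_grad hconv hyb hz hd2
        simp only [add_apply, gr_apply] at this
        simp only [hF]
        refine le_trans (le_of_eq ?_) this
        have e1 : (C • (2 • (innerSL ℝ y))) (z - y) = C * (2 * inner ℝ y (z - y)) := by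
          rw [two_smul, two_mul]
          rfl
        rw [e1]
      exact (isClosed_Iic.mem_of_frequently_of_tendsto hle hFc)
    -- local minimum along the curve
    have hγd : HasDerivAt γ (deriv γ t) t := (hγ.differentiableAt (by norm_num)).hasDerivAt
    have hq : HasDerivAt (fun s => ‖γ s‖ ^ 2) (2 * inner ℝ (γ t) (deriv γ t)) t := by
      have h1 := (hasStrictFDerivAt_norm_sq (γ t)).hasFDerivAt.comp_hasDerivAt t hγd
      have e2 : (2 • (innerSL ℝ (γ t))) (deriv γ t) = 2 * inner ℝ (γ t) (deriv γ t) := by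
        rw [two_smul, two_mul]
        rfl
      rw [e2] at h1
      exact h1
    have hl : HasDerivAt (fun s => (B j (γ t) * (γ s - γ t)).re
        + C * (2 * inner ℝ (γ t) (γ s - γ t)))
        ((B j (γ t) * deriv γ t).re + C * (2 * inner ℝ (γ t) (deriv γ t))) t := by
      have h1 : HasDerivAt (fun s => gr (B j (γ t)) (γ s - γ t)) (gr (B j (γ t)) (deriv γ t)) t :=
        (gr (B j (γ t))).hasFDerivAt.comp_hasDerivAt t (hγd.sub_const _)
      have h2 : HasDerivAt (fun s => innerSL ℝ (γ t) (γ s - γ t))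
          (innerSL ℝ (γ t) (deriv γ t)) t :=
        (innerSL ℝ (γ t)).hasFDerivAt.comp_hasDerivAt t (hγd.sub_const _)
      exact h1.add ((h2.const_mul 2).const_mul C)
    have hG : HasDerivAt (fun s => (U (γ s) + C * ‖γ s‖ ^ 2) - ((B j (γ t) * (γ s - γ t)).re
        + C * (2 * inner ℝ (γ t) (γ s - γ t))))
        (((B i (γ t) * deriv γ t).re + C * (2 * inner ℝ (γ t) (deriv γ t))) -
          ((B j (γ t) * deriv γ t).re + C * (2 * inner ℝ (γ t) (deriv γ t)))) t :=
      (hg.add (hq.const_mul C)).sub hl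
    have hmin : IsLocalMin (fun s => (U (γ s) + C * ‖γ s‖ ^ 2) - ((B j (γ t) * (γ s - γ t)).re
        + C * (2 * inner ℝ (γ t) (γ s - γ t)))) t := by
      have hev : ∀ᶠ s in 𝓝 t, γ s ∈ ball (γ t) ε :=
        hγd.continuousAt.eventually (isOpen_ball.mem_nhds (mem_ball_self hε))
      filter_upwards [hev] with s hs
      have := hlim (γ s) hs
      simp only [sub_self, mul_zero, Complex.zero_re, inner_zero_right, add_zero]
      linarith
    have h0 := hmin.hasDerivAt_eq_zero hG
    apply hne j hj
    linarith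
  have hall : ∀ᶠ y in 𝓝 (γ t), ∀ j, j ≠ i → ¬ HasFDerivAt U (gr (B j y)) y := by
    rw [Filter.eventually_all]
    intro j
    by_cases hj : j = i
    · exact Eventually.of_forall (fun y h => absurd hj h)
    · exact (key j hj).mono (fun y hy _ => hy)
  filter_upwards [hall] with y hy j hjd
  by_contra hji
  exact hy j hji hjd

end Pool.Agent.W778.CQ.DIFC
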